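import Pool.Agent.U6.EK.Stm

/-!
# Project EK, package PROD (helper129): comparison of a product with the exponential
-/

set_option autoImplicit false
set_option linter.all false

namespace Pool.Agent.U129.EK

open Finset

theorem fac_le {t : ℂ} (ht : ‖1 + t‖ ≤ 1) {q : ℝ} (h0 : 0 ≤ q) (h1 : q ≤ 1) :
    ‖1 + t * (q : ℂ)‖ ≤ 1 := by
  have e : 1 + t * (q : ℂ) = ((1 - q : ℝ) : ℂ) + (q : ℂ) * (1 + t) := by
    push_cast
    ring
  rw [e]
  refine (norm_add_le _ _).trans ?_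
  rw [norm_mul, Complex.norm_real, Complex.norm_real, Real.norm_eq_abs, Real.norm_eq_abs,
    abs_of_nonneg h0, abs_of_nonneg (sub_nonneg.2 h1)]
  nlinarith [mul_le_mul_of_nonneg_left ht h0]

theorem exp_le {t : ℂ} (ht : ‖1 + t‖ ≤ 1) {q : ℝ} (h0 : 0 ≤ q) :
    ‖Complex.exp (t * (q : ℂ))‖ ≤ 1 := by
  have hre : t.re ≤ 0 := by
    have h := (Complex.re_le_norm (1 + t)).trans ht
    rw [Complex.add_re, Complex.one_re] at h
    linarith
  rw [Complex.norm_exp, Complex.re_mul_ofReal]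
  exact Real.exp_le_one_iff.2 (mul_nonpos_of_nonpos_of_nonneg hre h0)

theorem dif_le {t : ℂ} (ht : ‖t‖ ≤ 1) {q : ℝ} (h0 : 0 ≤ q) (h1 : q ≤ 1) :
    ‖(1 + t * (q : ℂ)) - Complex.exp (t * (q : ℂ))‖ ≤ ‖t‖ ^ 2 * q ^ 2 := by
  have hz : ‖t * (q : ℂ)‖ = ‖t‖ * q := by
    rw [norm_mul, Complex.norm_real, Real.norm_eq_abs, abs_of_nonneg h0]
  have h := Complex.norm_exp_sub_one_sub_id_le (x := t * (q : ℂ)) (by
    rw [hz]
    exact mul_le_one₀ ht h0 h1)
  rw [hz, mul_pow] at h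
  rw [norm_sub_rev]
  have e : Complex.exp (t * (q : ℂ)) - (1 + t * (q : ℂ)) =
      Complex.exp (t * (q : ℂ)) - 1 - t * (q : ℂ) := by ring
  rw [e]
  exact h

theorem t_PROD : Pool.Agent.U6.EK.T_PROD := by
  intro P q t hq ht1 ht
  have main : ‖∏ p ∈ P, (1 + t * (q p : ℂ)) - ∏ p ∈ P, Complex.exp (t * (q p : ℂ))‖ ≤
      ∑ p ∈ P, ‖t‖ ^ 2 * q p ^ 2 := by
    classical
    induction P using Finset.induction_on with
    | empty => simp
    | insert a s ha ih =>
      have ih' := ih fun p hp => hq p (mem_insert_of_mem hp)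
      obtain ⟨hqa0, hqa1⟩ := hq a (mem_insert_self a s)
      rw [prod_insert ha, prod_insert ha, sum_insert ha]
      have hB : ‖∏ p ∈ s, Complex.exp (t * (q p : ℂ))‖ ≤ 1 := by
        rw [norm_prod]
        exact prod_le_one (fun _ _ => norm_nonneg _) fun p hp =>
          exp_le ht1 (hq p (mem_insert_of_mem hp)).1
      have e : (1 + t * (q a : ℂ)) * ∏ p ∈ s, (1 + t * (q p : ℂ)) -
          Complex.exp (t * (q a : ℂ)) * ∏ p ∈ s, Complex.exp (t * (q p : ℂ)) =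
          ((1 + t * (q a : ℂ)) - Complex.exp (t * (q a : ℂ))) *
            ∏ p ∈ s, Complex.exp (t * (q p : ℂ)) +
          (1 + t * (q a : ℂ)) * (∏ p ∈ s, (1 + t * (q p : ℂ)) -
            ∏ p ∈ s, Complex.exp (t * (q p : ℂ))) := by ring
      rw [e]
      refine (norm_add_le _ _).trans (add_le_add ?_ ?_)
      · rw [norm_mul]
        exact (mul_le_of_le_one_right (norm_nonneg _) hB).trans (dif_le ht hqa0 hqa1)
      · rw [norm_mul]
        exact (mul_le_of_le_one_left (norm_nonneg _) (fac_le ht1 hqa0 hqa1)).trans ih'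
  have e1 : Complex.exp (t * ((∑ p ∈ P, q p : ℝ) : ℂ)) =
      ∏ p ∈ P, Complex.exp (t * (q p : ℂ)) := by
    rw [← Complex.exp_sum]
    congr 1
    push_cast
    rw [mul_sum]
  rw [e1, mul_sum]
  exact main

end Pool.Agent.U129.EK
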